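import Pool.Agent.H44.DU.Basic2

/-!
# The upper and the lower part together
-/

set_option autoImplicit false

namespace Pool.Agent.H21.DU.MS

open Pool.Agent.H44.DU

variable {n : ℕ} (S : Surf n)

lemma rev_rev : S.rev.rev = S := by
  cases S
  simp [Surf.rev]

lemma io_left (h : T_IO) (t : ℝ) (p : Side n × ℝ) : S.rev.io t (S.io t p) = p := (h n S t).1 p

lemma io_right (h : T_IO) (t : ℝ) (p : Side n × ℝ) : S.io t (S.rev.io t p) = p := by
  have := (h n S.rev t).1 p
  rwa [rev_rev] at this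

lemma cyc_rev (h : T_IO) {t : ℝ} {m : ℕ} {y : ℕ → Side n × ℝ} (hc : S.TCyc t m y) :
    S.rev.TCyc t m (fun k => S.io t (y (m - k))) := by
  obtain ⟨h1, h2, h3⟩ := hc
  refine ⟨h1, fun k hk => ?_, ?_⟩
  · have h4 := h2 (m - (k + 1)) (by omega)
    have h5 : m - (k + 1) + 1 = m - k := by omega
    rw [h5] at h4
    exact ((h n S t).2 _ _).1 h4
  · simp [h3]

lemma per_rev (h : T_IO) {t : ℝ} {p : Side n × ℝ} (hp : p ∈ S.TPer t) :
    S.io t p ∈ S.rev.TPer t := by
  obtain ⟨m, y, hc, hy⟩ := hp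
  refine ⟨m, _, cyc_rev S h hc, ?_⟩
  simp [hc.2.2, hy]

lemma per_rev' (h : T_IO) {t : ℝ} {p : Side n × ℝ} (hp : p ∈ S.rev.TPer t) :
    S.rev.io t p ∈ S.TPer t := by
  have := per_rev S.rev h hp
  rwa [rev_rev] at this

lemma acc_of_fin {t : ℝ} {y : ℕ → Side n × ℝ} (hf : (S.TPer t).Finite)
    (hy : ∀ k, y k ∈ S.TPer t) : S.TAcc t y := by
  by_contra hcon
  have h1 : ∀ q ∈ S.TPer t, {k | y k = q}.Finite := by
    intro q hq
    by_contra h2
    apply hcon
    refine ⟨q, hq, fun ε hε N => ?_⟩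
    obtain ⟨k, hk, hN⟩ := Set.Infinite.exists_gt h2 N
    have hk' : y k = q := hk
    refine ⟨k, hN.le, by rw [hk'], by rw [hk']; simpa using hε⟩
  have h3 : (⋃ q ∈ S.TPer t, {k | y k = q}) = Set.univ := by
    ext k
    simp only [Set.mem_iUnion, Set.mem_ofPred_eq, exists_prop, Set.mem_univ, iff_true]
    exact ⟨y k, hy k, rfl⟩
  have h4 : (⋃ q ∈ S.TPer t, {k | y k = q}).Finite := Set.Finite.biUnion hf h1
  rw [h3] at h4
  exact Set.infinite_univ h4

theorem pf_MS (h : T_IO) : T_MS := by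
  intro n S U t hn hA hU hL
  have step : ∀ p q : Side n × ℝ, S.Tr t p q → U p.1.1 → U q.1.1 := by
    intro p q hpq hp
    have := hA p.1 p.2 hpq.1 hp
    rwa [hpq.2.2.1] at this
  have cycU : ∀ (m : ℕ) (y : ℕ → Side n × ℝ), S.TCyc t m y → ∀ j ≤ m, U (y j).1.1 →
      U (y 0).1.1 := by
    intro m y hc j hj hy
    rw [← hc.2.2]
    have : ∀ i, j ≤ i → i ≤ m → U (y i).1.1 := by
      intro i hi
      induction i, hi using Nat.le_induction with
      | base => exact fun _ => hy
      | succ i hi ih => exact fun h5 => step _ _ (hc.2.1 i (by omega)) (ih (by omega))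
    exact this m hj le_rfl
  have cycL : ∀ (m : ℕ) (y : ℕ → Side n × ℝ), S.TCyc t m y → ¬ U (y 0).1.1 →
      ¬ U (S.gl (y 0).1).1 := by
    intro m y hc hy h2
    apply hy
    refine cycU m y hc 1 hc.1 ?_
    have h3 := (hc.2.1 0 hc.1).2.2.1
    rwa [h3] at h2
  have fin : (S.TPer t).Finite := by
    have h1 : S.TPer t ⊆ {p ∈ S.TPer t | U p.1.1} ∪
        (S.io t) ⁻¹' {p ∈ S.rev.TPer t | ¬ U p.1.1} := by
      intro p hp
      by_cases hp2 : U p.1.1
      · exact Or.inl ⟨hp, hp2⟩
      · refine Or.inr ⟨per_rev S h hp, ?_⟩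
        obtain ⟨m, y, hc, hy⟩ := hp
        have := cycL m y hc (by rw [hy]; exact hp2)
        rw [hy] at this
        exact this
    refine Set.Finite.subset (Set.Finite.union hU.fin (Set.Finite.preimage ?_ hL.fin)) h1
    intro p _ q _ hpq
    rw [← io_left S h t p, hpq, io_left S h t q]
  refine ⟨fin, ?_, ?_, ?_, ?_⟩
  · by_cases h0 : U ⟨0, hn⟩
    · obtain ⟨p, hp, -⟩ := hU.ne ⟨_, h0⟩
      exact ⟨p, hp⟩
    · obtain ⟨p, hp, -⟩ := hL.ne ⟨_, h0⟩
      exact ⟨_, per_rev' S h hp⟩
  · intro m y hc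
    by_cases h0 : U (y 0).1.1
    · exact hU.hyp m y hc h0
    · have h1 := hL.hyp m _ (cyc_rev S h hc) (by
        have := cycL m y hc h0
        simpa [Surf.io, hc.2.2] using this)
      intro h2
      apply h1
      have h3 : ∀ k, S.rev.a (S.io t (y (m - k))).1 = (S.a (y (m - k)).1)⁻¹ := by
        intro k
        exact S.a_gl _
      rw [Finset.prod_congr rfl (fun k _ => h3 k), Finset.prod_inv_distrib]
      have h4 : ∏ k ∈ Finset.range m, S.a (y (m - k)).1 =
          ∏ k ∈ Finset.range m, S.a (y (k + 1)).1 := by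
        rw [← Finset.prod_range_reflect (fun k => S.a (y (k + 1)).1) m]
        apply Finset.prod_congr rfl
        intro k hk
        have hk2 := Finset.mem_range.1 hk
        rw [show m - 1 - k + 1 = m - k by omega]
      have h5 : (∏ k ∈ Finset.range m, S.a (y (k + 1)).1) * S.a (y 0).1 =
          (∏ k ∈ Finset.range m, S.a (y k).1) * S.a (y m).1 := by
        rw [← Finset.prod_range_succ' (fun k => S.a (y k).1) m,
          ← Finset.prod_range_succ (fun k => S.a (y k).1) m]
      rw [hc.2.2, h2] at h5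
      have h6 := mul_right_cancel₀ (S.a_pos (y 0).1).ne' h5
      rw [h4, h6, inv_one]
  · intro y hy
    by_cases hx : ∃ k, U (y k).1.1
    · obtain ⟨k, hk⟩ := hx
      obtain ⟨q, hq, h1⟩ := hU.fwd (fun j => y (k + j)) (fun j => hy (k + j)) (by simpa using hk)
      refine ⟨q, hq, fun ε hε N => ?_⟩
      obtain ⟨j, hj, h2⟩ := h1 ε hε N
      exact ⟨k + j, by omega, h2⟩
    · push Not at hx
      apply acc_of_fin S fin
      intro k
      have h1 := hL.bwd (fun j => S.io t (y (k + j)))
        (fun j => ((h n S t).2 _ _).1 (hy (k + j)))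
        (fun j => by
          have h2 := (hy (k + j)).2.2.1
          change ¬ U (S.gl (y (k + j)).1).1
          rw [h2]
          exact hx _)
      have h2 := per_rev' S h h1
      simpa [io_left S h] using h2
  · intro y hy
    by_cases hx : ∀ k, U (y k).1.1
    · apply acc_of_fin S fin
      intro k
      exact hU.bwd (fun j => y (k + j)) (fun j => hy (k + j)) (fun j => hx _)
    · push Not at hx
      obtain ⟨k0, hk0⟩ := hx
      have h1 := hL.fwd (fun j => S.io t (y (k0 + 1 + j)))
        (fun j => ((h n S t).2 _ _).1 (hy (k0 + 1 + j)))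
        (by
          have h2 := (hy k0).2.2.1
          change ¬ U (S.gl (y (k0 + 1 + 0)).1).1
          rw [add_zero, h2]
          exact hk0)
      obtain ⟨q', hq', h2⟩ := h1
      refine ⟨S.rev.io t q', per_rev' S h hq', fun ε hε N => ?_⟩
      have hpos := S.a_pos (S.rev.io t q').1
      obtain ⟨k, hk, h3, h4⟩ := h2 (ε * S.a (S.rev.io t q').1) (mul_pos hε hpos) N
      refine ⟨k0 + 1 + k, by omega, ?_, ?_⟩
      · change _ = S.gl q'.1
        rw [← h3]
        change _ = S.gl (S.gl (y (k0 + 1 + k)).1)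
        rw [S.gl_gl]
      · have h5 : (y (k0 + 1 + k)).1 = (S.rev.io t q').1 := by
          change _ = S.gl q'.1
          rw [← h3]
          change _ = S.gl (S.gl (y (k0 + 1 + k)).1)
          rw [S.gl_gl]
        have h6 : q'.2 = -S.mv t (S.rev.io t q').1 (S.rev.io t q').2 := by
          conv_lhs => rw [← io_right S h t q']
          rfl
        have h7 : (S.io t (y (k0 + 1 + k))).2 =
            -S.mv t (S.rev.io t q').1 (y (k0 + 1 + k)).2 := by
          rw [← h5]
          rfl
        have h8 : (S.io t (y (k0 + 1 + k))).2 - q'.2 =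
            -(S.a (S.rev.io t q').1 * ((y (k0 + 1 + k)).2 - (S.rev.io t q').2)) := by
          rw [h6, h7]
          simp only [Surf.mv]
          ring
        rw [h8, abs_neg, abs_mul, abs_of_pos hpos, mul_comm ε] at h4
        exact lt_of_mul_lt_mul_left h4 hpos.le

end Pool.Agent.H21.DU.MS
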