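import Pool.Agent.H44.DU.Targets

/-!
# The fixed point of a periodic word
-/

set_option autoImplicit false

namespace Pool.Agent.H21.DU.P2

open Pool.Agent.H44.DU

variable {n : ℕ} (S : Surf n)

lemma mono (hHT : T_HT) {t x : ℝ} {s : Side n} : ∀ (q p : List (Side n)) (r : Side n)
    (b : List (Side n)), q ++ [s] = r :: b → S.Run t (p ++ (q ++ [s])) x →
    S.ht t p r x ≤ S.ht t (p ++ q) s x := by
  intro q
  induction q with
  | nil =>
    intro p r b h _
    simp only [List.nil_append, List.cons.injEq] at h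
    rw [List.append_nil, h.1]
  | cons a q ih =>
    intro p r b h hr
    simp only [List.cons_append, List.cons.injEq] at h
    obtain ⟨h1, h2⟩ := h
    subst h1
    obtain ⟨r1, b1, hb⟩ : ∃ r1 b1, q ++ [s] = r1 :: b1 := by
      cases q with
      | nil => exact ⟨s, [], rfl⟩
      | cons a' q' => exact ⟨a', q' ++ [s], rfl⟩
    have e1 : p ++ (a :: q ++ [s]) = (p ++ [a]) ++ (q ++ [s]) := by simp
    rw [e1] at hr
    have h3 := ih (p ++ [a]) r1 b1 hb hr
    have e2 : (p ++ [a]) ++ (q ++ [s]) = (p ++ [a] ++ [r1]) ++ b1 := by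
      rw [hb]; simp
    rw [e2, S.run_append] at hr
    obtain ⟨h4, h5, -⟩ := hHT n S t x p a r1 hr.1
    have h6 := div_pos h5 (S.A_pos (p ++ [a]))
    have e3 : p ++ a :: q = p ++ [a] ++ q := by simp
    rw [e3]
    linarith

lemma gain_ht (hHT : T_HT) {t x c M : ℝ} (hG : S.Gain t c) (hc : 0 < c)
    {p z : List (Side n)} {r s : Side n} (hl : 3 * n + 1 ≤ (r :: z ++ [s]).length)
    (hM : ∀ j, S.A ((p ++ (r :: z ++ [s])).take j) ≤ M)
    (hx : S.Run t (p ++ (r :: z ++ [s])) x) :
    c / M ≤ S.ht t (p ++ r :: z) s x - S.ht t p r x := by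
  have hx0 := hx
  rw [S.run_append] at hx
  obtain ⟨a, l, l', b, hY, hg⟩ := hG _ _ hx.2.2 hl
  rw [hY] at hx0 hM
  -- step 1
  have e1 : ∃ b0, a ++ [l] = r :: b0 := by
    cases a with
    | nil =>
      simp only [List.cons_append, List.nil_append, List.cons.injEq] at hY
      exact ⟨[], by rw [hY.1]; rfl⟩
    | cons a0 a1 =>
      simp only [List.cons_append, List.cons.injEq] at hY
      exact ⟨a1 ++ [l], by rw [hY.1]; rfl⟩
  obtain ⟨b0, hb0⟩ := e1
  have e2 : p ++ (a ++ l :: l' :: b) = (p ++ (a ++ [l])) ++ (l' :: b) := by simp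
  have r1 : S.Run t (p ++ (a ++ [l])) x := by
    rw [e2, S.run_append] at hx0
    exact hx0.1
  have s1 := mono S hHT a p r b0 hb0 r1
  -- step 2
  have e3 : p ++ (a ++ l :: l' :: b) = (p ++ a ++ [l] ++ [l']) ++ b := by simp
  have r2 : S.Run t (p ++ a ++ [l] ++ [l']) x := by
    rw [e3, S.run_append] at hx0
    exact hx0.1
  obtain ⟨h4, -, -⟩ := hHT n S t x (p ++ a) l l' r2
  have e4 : S.g t (p ++ a ++ [l]) x = S.g t (a ++ [l]) (S.g t p x) := by
    rw [List.append_assoc, S.g_append]
  rw [e4] at h4
  have hA := S.A_pos (p ++ a ++ [l])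
  have hAM : S.A (p ++ a ++ [l]) ≤ M := by
    have h5 := hM (p ++ a ++ [l]).length
    have e5 : p ++ (a ++ l :: l' :: b) = (p ++ a ++ [l]) ++ (l' :: b) := by simp
    rwa [e5, List.take_left] at h5
  have s2 : c / M ≤ S.ht t (p ++ a ++ [l]) l' x - S.ht t (p ++ a) l x := by
    rw [h4]
    exact div_le_div₀ (hc.le.trans hg) hg hA hAM
  -- step 3
  have e6 : (l' :: b) = (l' :: b).dropLast ++ [(l' :: b).getLast (by simp)] :=
    (List.dropLast_append_getLast (by simp)).symm
  have e7 : (r :: z) ++ [s] = (a ++ [l] ++ (l' :: b).dropLast) ++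
      [(l' :: b).getLast (by simp)] := by
    have : (r :: z) ++ [s] = a ++ [l] ++ (l' :: b) := by
      rw [hY]; simp
    rw [this, List.append_assoc (a ++ [l]), ← e6]
  obtain ⟨e8, e9⟩ := List.append_inj' e7 rfl
  simp only [List.cons.injEq, and_true] at e9
  have r3 : S.Run t ((p ++ a ++ [l]) ++ ((l' :: b).dropLast ++ [s])) x := by
    rw [e9, ← e6]
    have e10 : p ++ a ++ [l] ++ (l' :: b) = p ++ (a ++ l :: l' :: b) := by simp
    rw [e10]
    exact hx0
  have s3 := mono S hHT _ (p ++ a ++ [l]) l' b (by rw [e9]; exact e6.symm) r3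
  have e11 : p ++ r :: z = p ++ a ++ [l] ++ (l' :: b).dropLast := by
    rw [e8]; simp
  rw [e11]
  linarith

lemma A_rep (u : List (Side n)) (k : ℕ) : S.A ((List.replicate k u).flatten) = S.A u ^ k := by
  induction k with
  | zero => simp [Surf.A]
  | succ k ih => rw [List.replicate_succ, List.flatten_cons, S.A_append, ih, pow_succ, mul_comm]

lemma g_fix (t : ℝ) (u : List (Side n)) {z : ℝ} (hz : S.g t u z = z) (k : ℕ) :
    S.g t ((List.replicate k u).flatten) z = z := by
  induction k with
  | zero => simp [Surf.g_nil]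
  | succ k ih => rw [List.replicate_succ, List.flatten_cons, S.g_append, hz, ih]

lemma g_sub (t : ℝ) (w : List (Side n)) (x y : ℝ) :
    S.g t w x - S.g t w y = S.A w * (x - y) := by
  simp only [Surf.g]; ring

lemma ht_cont (t : ℝ) (w : List (Side n)) (r : Side n) : Continuous fun x => S.ht t w r x := by
  unfold Surf.ht Surf.pt Surf.lam Surf.g
  fun_prop

lemma xi_dev (t : ℝ) (v : List (Side n)) (c : Side n) :
    xi t (S.dev v c) = (xi t (S.P c) - xi t (S.B v)) / S.A v := by
  rw [Surf.dev, xi_div, xi_sub]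

lemma g_of_dev {t x : ℝ} {v : List (Side n)} {c : Side n} (h : x = xi t (S.dev v c)) :
    S.g t v x = xi t (S.P c) := by
  rw [h, xi_dev, Surf.g, mul_div_cancel₀ _ (S.A_pos v).ne']
  ring

lemma dev_im (v : List (Side n)) (c : Side n) :
    (S.dev v c).im = ((S.P c).im - (S.B v).im) / S.A v := by
  rw [Surf.dev, Complex.div_ofReal_im, Complex.sub_im]

lemma ht_dev (hPT : T_PT) {t x : ℝ} {v : List (Side n)} {r c : Side n}
    (h : x = xi t (S.dev v c)) (hc : c = r ∨ c = nx r) (hr : xi t (S.P r) ≠ xi t (S.Q r)) :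
    S.ht t v r x = (S.dev v c).im := by
  have h1 := g_of_dev S h
  obtain ⟨-, -, h2, h3, -⟩ := hPT n S t r hr
  have h4 : S.pt t r (xi t (S.P c)) = S.P c := by
    rcases hc with hc | hc
    · rw [hc]; exact h2
    · rw [hc, S.P_nx]; exact h3
  rw [Surf.ht, h1, h4, dev_im]

theorem pf_P2 (h1 : T_HT) (h2 : T_LH) (h3 : T_DV) (h4 : T_FD) (h5 : T_PT) : T_P2 := by
  intro n S t c C ρ u w hGd hc hG hC hρ hρ1 hu hw hhead hA hx hrun
  obtain ⟨x0, hx0⟩ := hx
  have hApos := S.A_pos u
  -- contraction
  have hA1 : S.A u < 1 := by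
    by_contra hcon
    push Not at hcon
    have h6 : Filter.Tendsto (fun k : ℕ => C * ρ ^ k) Filter.atTop (nhds (C * 0)) :=
      (tendsto_pow_atTop_nhds_zero_of_lt_one hρ.le hρ1).const_mul C
    have h7 : (1 : ℝ) ≤ C * 0 := by
      refine ge_of_tendsto' h6 (fun k => ?_)
      refine le_trans ?_ (hA k)
      rw [A_rep]
      exact one_le_pow₀ hcon
    linarith
  refine ⟨hA1, xi t (S.B u) / (1 - S.A u), ?_⟩
  set z : ℝ := xi t (S.B u) / (1 - S.A u) with hz
  have hfix : S.g t u z = z := by
    have : (1 - S.A u) ≠ 0 := by linarith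
    rw [Surf.g, hz]
    field_simp
    ring
  refine ⟨hfix, fun k => hrun k z ?_⟩
  have hlim : Filter.Tendsto (fun k : ℕ => S.g t ((List.replicate k u).flatten) x0)
      Filter.atTop (nhds z) := by
    have h6 : ∀ k : ℕ, S.g t ((List.replicate k u).flatten) x0 = z + S.A u ^ k * (x0 - z) := by
      intro k
      have := g_sub S t ((List.replicate k u).flatten) x0 z
      rw [g_fix S t u hfix, A_rep] at this
      linarith
    have h7 : Filter.Tendsto (fun k : ℕ => z + S.A u ^ k * (x0 - z)) Filter.atTop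
        (nhds (z + 0 * (x0 - z))) :=
      ((tendsto_pow_atTop_nhds_zero_of_lt_one hApos.le hA1).mul_const (x0 - z)).const_add z
    simp only [zero_mul, add_zero] at h7
    exact h7.congr (fun k => (h6 k).symm)
  have hreal : ∀ k : ℕ, S.Run t w (S.g t ((List.replicate k u).flatten) x0) := by
    intro k
    have := hrun k x0 hx0
    rw [S.run_append] at this
    exact this.2.2
  have hlo : S.lo t w ≤ z :=
    ge_of_tendsto' hlim (fun k => ((h2 n S t w hw _).1 (hreal k)).2.1.le)
  have hhi : z ≤ S.hi t w :=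
    le_of_tendsto' hlim (fun k => ((h2 n S t w hw _).1 (hreal k)).2.2.le)
  obtain ⟨d1, d2, -⟩ := h3 n S t w hw
  -- no corner
  have key : ¬ ∃ (u' : List (Side n)) (r : Side n) (w' : List (Side n)) (c' : Side n),
      w = u' ++ r :: w' ∧ (c' = r ∨ c' = nx r) ∧ z = xi t (S.dev u' c') := by
    rintro ⟨u', r, w', c', hw', hc', hz'⟩
    obtain ⟨K, hK1, hK2⟩ : ∃ K : ℕ, 1 ≤ K ∧ 3 * n + 1 ≤ ((List.replicate K u).flatten).length := by
      refine ⟨3 * n + 1, by omega, ?_⟩
      have hul : 0 < u.length := List.length_pos_iff.2 hu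
      simp only [List.length_flatten, List.map_replicate, List.sum_replicate, smul_eq_mul]
      nlinarith
    set V := (List.replicate K u).flatten with hV
    have hVne : V ≠ [] := by
      intro h
      rw [h] at hK2
      simp at hK2
    have hVhead : V.head? = u.head? := by
      rw [hV]
      obtain ⟨K', rfl⟩ : ∃ K', K = K' + 1 := ⟨K - 1, by omega⟩
      rw [List.replicate_succ, List.flatten_cons]
      cases u with
      | nil => exact absurd rfl hu
      | cons a b => rfl
    have hpre : w <+: V ++ w := by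
      rcases h4 n S t x0 w (V ++ w) hx0 (hrun K x0 hx0) (by
        intro a ha b hb
        have : (V ++ w).head? = V.head? := by
          cases hV2 : V with
          | nil => exact absurd hV2 hVne
          | cons a b => rfl
        rw [this, hVhead, ← hhead] at hb
        rw [Option.mem_def] at ha hb
        rw [ha] at hb
        simp only [Option.some.injEq] at hb
        rw [hb]) with h6 | h6
      · exact h6
      · exfalso
        have := h6.length_le
        rw [List.length_append] at this
        have h7 : 0 < V.length := List.length_pos_iff.2 hVne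
        omega
    have hpre2 : u' ++ [r] <+: V ++ w := by
      refine List.IsPrefix.trans ?_ hpre
      rw [hw']
      exact ⟨w', by simp⟩
    have hpre3 : V ++ (u' ++ [r]) <+: V ++ w := by
      rw [hw']
      exact ⟨w', by simp⟩
    have hpre4 : u' ++ [r] <+: V ++ (u' ++ [r]) :=
      List.prefix_of_prefix_length_le hpre2 hpre3 (by simp)
    obtain ⟨q, hq⟩ := hpre4
    have hql : q.length = V.length := by
      have := congrArg List.length hq
      simp only [List.length_append, List.length_cons, List.length_nil] at this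
      omega
    have hqne : q ≠ [] := by
      intro h
      rw [h] at hql
      exact hVne (List.length_eq_zero_iff.1 hql.symm)
    obtain ⟨q', s, hqs⟩ : ∃ q' s, q = q' ++ [s] :=
      ⟨q.dropLast, q.getLast hqne, (List.dropLast_append_getLast hqne).symm⟩
    rw [hqs] at hq
    have hq2 : (u' ++ [r] ++ q') ++ [s] = (V ++ u') ++ [r] := by
      rw [List.append_assoc (u' ++ [r]), hq, List.append_assoc V]
    obtain ⟨e1, e2⟩ := List.append_inj' hq2 rfl
    simp only [List.cons.injEq, and_true] at e2
    subst e2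
    have e3 : V ++ u' = u' ++ s :: q' := by rw [← e1]; simp
    have e4 : V ++ (u' ++ [s]) = u' ++ (s :: q' ++ [s]) := by
      rw [← List.append_assoc, e3]; simp
    obtain ⟨M, hM⟩ : ∃ M, ∀ j, S.A ((u' ++ (s :: q' ++ [s])).take j) ≤ M := by
      set X := u' ++ (s :: q' ++ [s]) with hX
      refine ⟨∑ j ∈ Finset.range (X.length + 1), S.A (X.take j), fun j => ?_⟩
      rcases Nat.lt_or_ge X.length j with h6 | h6
      · have h7 : X.take j = X.take X.length := by
          rw [List.take_of_length_le h6.le, List.take_length]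
        rw [h7]
        exact Finset.single_le_sum (f := fun j => S.A (X.take j))
          (fun i _ => (S.A_pos _).le) (Finset.mem_range.2 (Nat.lt_succ_self _))
      · exact Finset.single_le_sum (f := fun j => S.A (X.take j))
          (fun i _ => (S.A_pos _).le) (Finset.mem_range.2 (Nat.lt_succ_of_le h6))
    have hMpos : 0 < M := lt_of_lt_of_le (S.A_pos _) (hM 0)
    have hgain : ∀ x, S.Run t w x → c / M ≤ S.ht t (V ++ u') s x - S.ht t u' s x := by
      intro x hx
      rw [e3]
      refine gain_ht S h1 hG hc ?_ hM ?_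
      · have : (s :: q' ++ [s]).length = q.length + 1 := by
          rw [hqs]; simp
        rw [this, hql]
        omega
      · rw [← e4]
        obtain ⟨y, hy⟩ := hpre3
        have := hrun K x hx
        rw [← hV, ← hy, S.run_append] at this
        exact this.1
    have hlim2 : c / M ≤ S.ht t (V ++ u') s z - S.ht t u' s z := by
      have hcont : Continuous fun x => S.ht t (V ++ u') s x - S.ht t u' s x :=
        (ht_cont S t (V ++ u') s).sub (ht_cont S t u' s)
      exact ge_of_tendsto' ((hcont.tendsto z).comp hlim) (fun k => hgain _ (hreal k))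
    have hne : xi t (S.P s) ≠ xi t (S.Q s) := by
      have h6 := hx0
      rw [hw', S.run_append] at h6
      have h7 := h6.2.2.1
      exact (h7.1.trans h7.2).ne'
    have hz2 : z = xi t (S.dev (V ++ u') c') := by
      have h6 : S.g t (V ++ u') z = xi t (S.P c') := by
        rw [S.g_append, g_fix S t u hfix]
        exact g_of_dev S hz'
      rw [xi_dev, ← h6, Surf.g]
      field_simp [(S.A_pos (V ++ u')).ne']
      ring
    have h6 := ht_dev S h5 hz' hc' hne
    have h7 := ht_dev S h5 hz2 hc' hne
    have h8 := hGd (V ++ u') u' c' c' (by rw [← hz2, ← hz'])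
    rw [h6, h7, h8, sub_self] at hlim2
    exact absurd (div_pos hc hMpos) (not_lt.2 hlim2)
  refine (h2 n S t w hw z).2 ⟨((h2 n S t w hw x0).1 hx0).1, lt_of_le_of_ne hlo ?_,
    lt_of_le_of_ne hhi ?_⟩
  · intro h6
    obtain ⟨u', r, w', hw', h7⟩ := d1
    exact key ⟨u', r, w', nx r, hw', Or.inr rfl, by rw [← h6, h7]⟩
  · intro h6
    obtain ⟨u', r, w', hw', h7⟩ := d2
    exact key ⟨u', r, w', r, hw', Or.inl rfl, by rw [h6, h7]⟩

end Pool.Agent.H21.DU.P2
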